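import Pool.Agent.H564.UA.Noise

/-! Uniform asymptotics in short intervals: transfer, and the size of the sets. -/

set_option autoImplicit false

namespace Pool.Agent.H564.UA

open Finset Filter Topology MeasureTheory ProbabilityTheory Classical

/-- the quantity `R(x, y)` for the primes with weights `w` -/
noncomputable def RR (w : ℕ → ℝ) (x y : ℝ) : ℝ :=
  (∑ p ∈ pr ⌊x⌋₊ ⌊x + y⌋₊, w p) / (y / Real.log x)

/-- the statement Q1 for the primes with weights `w` -/
def Uniform (w : ℕ → ℝ) : Prop :=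
  ∀ ε : ℝ, 0 < ε → ∃ N : ℝ, 1 < N ∧ ∀ x y : ℝ, N ≤ x → Real.log x ^ N ≤ y → y ≤ x →
    |RR w x y - 1| ≤ ε

/-- `|R(w) - R(v)| ≤ ε (1 + R(1))` for all `y ≥ (log x)^a` -/
def Close (w v : ℕ → ℝ) (a : ℝ) : Prop :=
  ∀ ε : ℝ, 0 < ε → ∃ X : ℝ, ∀ x y : ℝ, X ≤ x → Real.log x ^ a ≤ y → y ≤ x →
    |RR w x y - RR v x y| ≤ ε * (1 + RR (fun _ => 1) x y)

theorem rr_one (x y : ℝ) : RR (fun _ => 1) x y =
    ((pr ⌊x⌋₊ ⌊x + y⌋₊).card : ℝ) / (y / Real.log x) := by
  unfold RR
  rw [sum_const, nsmul_eq_mul, mul_one]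

theorem rr_nonneg {x y : ℝ} (hx : 1 ≤ x) (hy : 0 ≤ y) : 0 ≤ RR (fun _ => 1) x y := by
  rw [rr_one]
  have := Real.log_nonneg hx
  positivity

theorem close_of_noise {w v : ℕ → ℝ} {a : ℝ} (ha : 0 < a)
    (h : ∀ ε : ℝ, 0 < ε → ∀ᶠ m : ℕ in atTop, ∀ n : ℕ, n ≤ 2 * m + 2 →
      Real.log m ^ a / 2 ≤ (n : ℝ) - m →
      |∑ p ∈ pr m n, (w p - v p)| ≤
        ε * (((n : ℝ) - m) / Real.log m + ((pr m n).card : ℝ))) : Close w v a := by
  intro ε hε
  obtain ⟨m₀, hm₀⟩ := eventually_atTop.1 (h (ε / 3) (by positivity))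
  have t : Tendsto (fun x : ℝ => Real.log x) atTop atTop := Real.tendsto_log_atTop
  have t2 := t.eventually ((tendsto_rpow_atTop ha).eventually_ge_atTop 2)
  obtain ⟨X₀, hX₀⟩ := eventually_atTop.1 t2
  refine ⟨max X₀ (max 8 ((m₀ : ℝ) + 1)), fun x y hx hy hyx => ?_⟩
  have hx0 := hX₀ x ((le_max_left _ _).trans hx)
  have hx8 : 8 ≤ x := ((le_max_left _ _).trans (le_max_right _ _)).trans hx
  have hxm : (m₀ : ℝ) + 1 ≤ x := ((le_max_right _ _).trans (le_max_right _ _)).trans hx
  have hlog8 : 0 < Real.log x := Real.log_pos (by linarith)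
  have hy2 : 2 ≤ y := hx0.trans hy
  set m : ℕ := ⌊x⌋₊ with hm
  set n : ℕ := ⌊x + y⌋₊ with hn
  have hm1 : (m : ℝ) ≤ x := Nat.floor_le (by linarith)
  have hm2 : x < m + 1 := Nat.lt_floor_add_one _
  have hn1 : (n : ℝ) ≤ x + y := Nat.floor_le (by linarith)
  have hn2 : x + y < n + 1 := Nat.lt_floor_add_one _
  have hmm : m₀ ≤ m := by
    have : (m₀ : ℝ) < m + 1 := by linarith
    have : m₀ < m + 1 := by exact_mod_cast this
    omega
  have hm7 : (7 : ℝ) < m := by linarith
  have hnm : n ≤ 2 * m + 2 := by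
    have : (n : ℝ) < 2 * m + 2 + 1 := by linarith
    have : n < 2 * m + 2 + 1 := by exact_mod_cast this
    omega
  have hlogm : Real.log m ≤ Real.log x := Real.log_le_log (by linarith) hm1
  have hlogm0 : 0 < Real.log m := Real.log_pos (by linarith)
  have hlogm2 : 2 / 3 * Real.log x ≤ Real.log m := by
    have h1 : Real.log (x / 2) ≤ Real.log m := Real.log_le_log (by linarith) (by linarith)
    rw [Real.log_div (by linarith) (by norm_num)] at h1
    have h2 : 3 * Real.log 2 ≤ Real.log x := by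
      have : Real.log 8 ≤ Real.log x := Real.log_le_log (by norm_num) hx8
      have h3 : Real.log 8 = 3 * Real.log 2 := by
        rw [show (8 : ℝ) = 2 ^ 3 by norm_num, Real.log_pow]
        norm_num
      linarith
    linarith
  have hlen : Real.log m ^ a / 2 ≤ (n : ℝ) - m := by
    have h1 : Real.log m ^ a ≤ Real.log x ^ a := Real.rpow_le_rpow hlogm0.le hlogm ha.le
    linarith
  have h1 := hm₀ m hmm n hnm hlen
  have h2 : ((n : ℝ) - m) / Real.log m ≤ 3 * (y / Real.log x) := by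
    rw [div_le_iff₀ hlogm0]
    have h3 : (n : ℝ) - m ≤ 2 * y := by linarith
    have h4 : 3 * (y / Real.log x) * (2 / 3 * Real.log x) ≤ 3 * (y / Real.log x) * Real.log m :=
      mul_le_mul_of_nonneg_left hlogm2 (by positivity)
    have h5 : 3 * (y / Real.log x) * (2 / 3 * Real.log x) = 2 * y := by field_simp
    linarith
  have hyl : 0 < y / Real.log x := by positivity
  have e1 : RR w x y - RR v x y = (∑ p ∈ pr m n, (w p - v p)) / (y / Real.log x) := by
    rw [RR, RR, ← sub_div, sum_sub_distrib]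
  rw [e1, abs_div, abs_of_pos hyl, div_le_iff₀ hyl, rr_one]
  have h6 : ε * (1 + ((pr m n).card : ℝ) / (y / Real.log x)) * (y / Real.log x) =
      ε * (y / Real.log x + ((pr m n).card : ℝ)) := by
    field_simp
  rw [h6]
  have h7 : 0 ≤ ((pr m n).card : ℝ) := Nat.cast_nonneg _
  have h8 : ε / 3 * (((n : ℝ) - m) / Real.log m + ((pr m n).card : ℝ)) ≤
      ε / 3 * (3 * (y / Real.log x) + ((pr m n).card : ℝ)) :=
    mul_le_mul_of_nonneg_left (by linarith) (by positivity)
  nlinarith [mul_nonneg hε.le h7]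

theorem uniform_of {w : ℕ → ℝ} {a : ℝ} (h : Close w (fun _ => 1) a)
    (h1 : Uniform fun _ => 1) : Uniform w := by
  intro ε hε
  obtain ⟨N, hN1, hN⟩ := h1 (min (ε / 2) 1) (lt_min (by positivity) one_pos)
  obtain ⟨X, hX⟩ := h (ε / 6) (by positivity)
  refine ⟨max N (max a (max X 3)), lt_max_of_lt_left hN1, fun x y hx hy hyx => ?_⟩
  have hxN : N ≤ x := (le_max_left _ _).trans hx
  have hxX : X ≤ x := ((le_max_left _ _).trans ((le_max_right _ _).trans (le_max_right _ _))).trans hx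
  have hx3 : 3 ≤ x := ((le_max_right _ _).trans ((le_max_right _ _).trans (le_max_right _ _))).trans hx
  have hlog : 1 ≤ Real.log x := by
    rw [Real.le_log_iff_exp_le (by linarith)]
    have := Real.exp_one_lt_d9
    linarith
  have hyN : Real.log x ^ N ≤ y := by
    refine le_trans ?_ hy
    exact Real.rpow_le_rpow_of_exponent_le hlog (le_max_left _ _)
  have hya : Real.log x ^ a ≤ y := by
    refine le_trans ?_ hy
    exact Real.rpow_le_rpow_of_exponent_le hlog ((le_max_left _ _).trans (le_max_right _ _))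
  have h2 := hN x y hxN hyN hyx
  have h3 := hX x y hxX hya hyx
  have h4 := h2.trans (min_le_left _ _)
  have h5 := h2.trans (min_le_right _ _)
  have h6 := (abs_le.1 h5).2
  have h7 : ε / 6 * (1 + RR (fun _ => 1) x y) ≤ ε / 6 * 3 :=
    mul_le_mul_of_nonneg_left (by linarith) (by positivity)
  have h8 := abs_add_le (RR w x y - RR (fun _ => 1) x y) (RR (fun _ => 1) x y - 1)
  rw [sub_add_sub_cancel] at h8
  linarith

theorem of_uniform {w : ℕ → ℝ} {a : ℝ} (h : Close w (fun _ => 1) a) (h1 : Uniform w) :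
    Uniform fun _ => 1 := by
  intro ε hε
  set e : ℝ := min (ε / 10) (1 / 4) with he
  have he0 : 0 < e := lt_min (by positivity) (by norm_num)
  have he1 : e ≤ ε / 10 := min_le_left _ _
  have he2 : e ≤ 1 / 4 := min_le_right _ _
  obtain ⟨N, hN1, hN⟩ := h1 (min (ε / 2) 1) (lt_min (by positivity) one_pos)
  obtain ⟨X, hX⟩ := h e he0
  refine ⟨max N (max a (max X 3)), lt_max_of_lt_left hN1, fun x y hx hy hyx => ?_⟩
  have hxN : N ≤ x := (le_max_left _ _).trans hx
  have hxX : X ≤ x := ((le_max_left _ _).trans ((le_max_right _ _).trans (le_max_right _ _))).trans hx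
  have hx3 : 3 ≤ x := ((le_max_right _ _).trans ((le_max_right _ _).trans (le_max_right _ _))).trans hx
  have hlog : 1 ≤ Real.log x := by
    rw [Real.le_log_iff_exp_le (by linarith)]
    have := Real.exp_one_lt_d9
    linarith
  have hyN : Real.log x ^ N ≤ y := by
    refine le_trans ?_ hy
    exact Real.rpow_le_rpow_of_exponent_le hlog (le_max_left _ _)
  have hya : Real.log x ^ a ≤ y := by
    refine le_trans ?_ hy
    exact Real.rpow_le_rpow_of_exponent_le hlog ((le_max_left _ _).trans (le_max_right _ _))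
  have hy0 : 0 ≤ y := le_trans (by positivity) hya
  have hR0 : 0 ≤ RR (fun _ => 1) x y := rr_nonneg (by linarith) hy0
  have h2 := hN x y hxN hyN hyx
  have h3 := hX x y hxX hya hyx
  have h4 := h2.trans (min_le_left _ _)
  have h5 := h2.trans (min_le_right _ _)
  have h6 := (abs_le.1 h5).2
  have h9 := (abs_le.1 h3).1
  have h10 : e * (1 + RR (fun _ => 1) x y) ≤ 1 / 4 * (1 + RR (fun _ => 1) x y) :=
    mul_le_mul_of_nonneg_right he2 (by linarith)
  have hR4 : RR (fun _ => 1) x y ≤ 4 := by linarith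
  have h7 : e * (1 + RR (fun _ => 1) x y) ≤ e * 5 := mul_le_mul_of_nonneg_left (by linarith) he0.le
  have h8 := abs_add_le (RR (fun _ => 1) x y - RR w x y) (RR w x y - 1)
  rw [sub_add_sub_cancel, abs_sub_comm (RR (fun _ => 1) x y) (RR w x y)] at h8
  linarith

/-- the primes `p ≤ X` with `w p ≠ 0` -/
noncomputable def used (w : ℕ → ℝ) (X : ℕ) : Finset ℕ :=
  (Icc 1 X).filter fun p => p.Prime ∧ w p ≠ 0

/-- **Optimality.** -/
theorem size_lower {w : ℕ → ℝ} (h : Uniform w) :
    ∃ N : ℝ, 0 < N ∧ ∀ᶠ X : ℕ in atTop, (X : ℝ) / Real.log X ^ N ≤ ((used w X).card : ℝ) := by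
  obtain ⟨N, hN1, hN⟩ := h (1 / 2) (by norm_num)
  refine ⟨N + 1, by linarith, ?_⟩
  have hN0 : 0 < N := by linarith
  have tc := tendsto_natCast_atTop_atTop (R := ℝ)
  -- `(log x)^N ≤ x^(1/2)` and so on
  have h1 := tc.eventually ((isLittleO_log_rpow_atTop (show 0 < 1 / (2 * N) by positivity)).bound
    (show (0 : ℝ) < 1 by norm_num))
  have h2 := tc.eventually (Real.tendsto_log_atTop.eventually_ge_atTop 16)
  have h3 := tc.eventually ((tendsto_rpow_atTop (show (0 : ℝ) < 1 / 2 by norm_num)).eventually_ge_atTop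
    (16 + 2 * N))
  obtain ⟨M₀, hM₀⟩ := eventually_atTop.1 (h1.and (h2.and h3))
  filter_upwards [eventually_ge_atTop (2 * M₀ + 8)] with X hX
  -- facts about large integers
  have hlarge : ∀ x : ℕ, M₀ ≤ x → 0 < (x : ℝ) ∧ 16 ≤ Real.log x ∧ Real.log x ^ N ≤ (x : ℝ) ^ (1 / 2 : ℝ)
      ∧ 16 + 2 * N ≤ (x : ℝ) ^ (1 / 2 : ℝ) := by
    intro x hx
    obtain ⟨a1, a2, a3⟩ := hM₀ x hx
    have hx0 : (0 : ℝ) < x := by
      rcases Nat.eq_zero_or_pos x with h0 | h0
      · rw [h0, Nat.cast_zero, Real.log_zero] at a2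
        norm_num at a2
      · exact_mod_cast h0
    rw [Real.norm_of_nonneg (by linarith), one_mul, Real.norm_of_nonneg (by positivity)] at a1
    refine ⟨hx0, a2, ?_, a3⟩
    calc Real.log x ^ N ≤ ((x : ℝ) ^ (1 / (2 * N))) ^ N := Real.rpow_le_rpow (by linarith) a1 hN0.le
      _ = (x : ℝ) ^ (1 / 2 : ℝ) := by
          rw [← Real.rpow_mul hx0.le]
          congr 1
          field_simp
  obtain ⟨hX0, hX16, hXN, hXbig⟩ := hlarge X (by omega)
  set T : ℝ := Real.log X ^ N with hT
  have hT1 : 1 ≤ T := Real.one_le_rpow (by linarith) hN0.le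
  set L : ℕ := ⌈T⌉₊ + 1 with hL
  have hL1 : T + 1 ≤ L := by
    rw [hL]
    push_cast
    linarith [Nat.le_ceil T]
  have hL2 : (L : ℝ) ≤ 3 * T := by
    rw [hL]
    push_cast
    have := Nat.ceil_lt_add_one (show 0 ≤ T by linarith)
    linarith
  have hLpos : 0 < L := by omega
  set B : ℕ := X / 2 with hB
  have hBM : M₀ ≤ B := by omega
  -- a used prime in every interval
  have hint : ∀ k : ℕ, B + (k + 1) * L ≤ X → ∃ p : ℕ, p ∈ used w X ∧ B + k * L < p ∧
      p ≤ B + (k + 1) * L := by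
    intro k hk
    set m : ℕ := B + k * L with hm
    have hmM : M₀ ≤ m := by omega
    obtain ⟨b1, b2, b3, b4⟩ := hlarge m hmM
    have hmX : m ≤ X := by
      have : B + (k + 1) * L = m + L := by rw [hm]; ring
      omega
    have hmX' : (m : ℝ) ≤ X := by exact_mod_cast hmX
    have hsq : (m : ℝ) ^ (1 / 2 : ℝ) * (m : ℝ) ^ (1 / 2 : ℝ) = m := by
      rw [← Real.rpow_add b1]
      norm_num
    have hmN : N ≤ m := by nlinarith
    have hym : Real.log m ^ N ≤ m := by nlinarith
    have h5 := hN m (Real.log m ^ N) hmN le_rfl hym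
    have h6 : RR w m (Real.log m ^ N) ≠ 0 := by
      intro h0
      rw [h0] at h5
      norm_num at h5
    obtain ⟨p, hp, hwp⟩ : ∃ p ∈ pr ⌊(m : ℝ)⌋₊ ⌊(m : ℝ) + Real.log m ^ N⌋₊, w p ≠ 0 := by
      by_contra hcon
      push Not at hcon
      apply h6
      unfold RR
      rw [sum_eq_zero hcon, zero_div]
    rw [pr, mem_filter, mem_Ioc, Nat.floor_natCast] at hp
    obtain ⟨⟨hp1, hp2⟩, hpp⟩ := hp
    have hpT : p ≤ m + L := by
      have h7 : (p : ℝ) ≤ (m : ℝ) + Real.log m ^ N :=
        (Nat.le_floor_iff (by positivity)).1 hp2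
      have h8 : Real.log m ^ N ≤ T :=
        Real.rpow_le_rpow (by linarith) (Real.log_le_log b1 hmX') hN0.le
      have h9 : (p : ℝ) ≤ ((m + L : ℕ) : ℝ) := by
        push_cast
        linarith
      exact_mod_cast h9
    have hmL : m + L = B + (k + 1) * L := by rw [hm]; ring
    refine ⟨p, ?_, hp1, by omega⟩
    rw [used, mem_filter, mem_Icc]
    exact ⟨⟨hpp.one_le, by omega⟩, hpp, hwp⟩
  choose! f hf1 hf2 hf3 using hint
  set K : ℕ := (X - B) / L with hK
  have hKL : ∀ k < K, B + (k + 1) * L ≤ X := by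
    intro k hk
    have h5 : (k + 1) * L ≤ K * L := Nat.mul_le_mul_right L (by omega)
    have h6 : K * L ≤ X - B := Nat.div_mul_le_self _ _
    omega
  have hinj : Set.InjOn f (range K : Finset ℕ) := by
    intro i hi j hj hij
    rw [mem_coe, mem_range] at hi hj
    have a1 := hf2 i (hKL i hi)
    have a2 := hf3 i (hKL i hi)
    have a3 := hf2 j (hKL j hj)
    have a4 := hf3 j (hKL j hj)
    rw [hij] at a1 a2
    by_contra hne
    rcases lt_or_gt_of_ne hne with hlt | hlt
    · have : (i + 1) * L ≤ j * L := Nat.mul_le_mul_right L (by omega)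
      omega
    · have : (j + 1) * L ≤ i * L := Nat.mul_le_mul_right L (by omega)
      omega
  have hcard : K ≤ (used w X).card := by
    have h5 := card_le_card_of_injOn f (s := range K) (t := used w X)
      (fun k hk => by
        rw [mem_coe, mem_range] at hk
        exact hf1 k (hKL k hk)) hinj
    rwa [card_range] at h5
  have hcard' : (K : ℝ) ≤ ((used w X).card : ℝ) := by exact_mod_cast hcard
  refine le_trans ?_ hcard'
  have hKlow : ((X : ℝ) / 2) / L - 1 ≤ K := by
    have h5 : (X - B) < K * L + L := by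
      have := Nat.lt_div_mul_add (a := X - B) (b := L) hLpos
      exact this
    have h6 : ((X - B : ℕ) : ℝ) < (K : ℝ) * L + L := by exact_mod_cast h5
    rw [Nat.cast_sub (by omega)] at h6
    have h7 : (B : ℝ) ≤ (X : ℝ) / 2 := Nat.cast_div_le
    have hLr : (0 : ℝ) < L := by exact_mod_cast hLpos
    rw [sub_le_iff_le_add, div_le_iff₀ hLr]
    nlinarith
  have hsqX : (X : ℝ) ^ (1 / 2 : ℝ) * (X : ℝ) ^ (1 / 2 : ℝ) = X := by
    rw [← Real.rpow_add hX0]
    norm_num
  have hXT : 16 * T ≤ X := by nlinarith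
  have hlow1 : (X : ℝ) / (6 * T) ≤ ((X : ℝ) / 2) / L := by
    rw [div_div]
    refine div_le_div_of_nonneg_left hX0.le (by positivity) ?_
    linarith
  have hlow2 : 1 ≤ (X : ℝ) / (16 * T) := by
    rw [le_div_iff₀ (by positivity)]
    linarith
  have hlow3 : (X : ℝ) / Real.log X ^ (N + 1) ≤ (X : ℝ) / (16 * T) := by
    refine div_le_div_of_nonneg_left hX0.le (by positivity) ?_
    rw [Real.rpow_add (by linarith), Real.rpow_one, ← hT]
    nlinarith
  have hlow4 : (X : ℝ) / (16 * T) + (X : ℝ) / (16 * T) ≤ (X : ℝ) / (6 * T) := by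
    rw [← add_div, div_le_div_iff₀ (by positivity) (by positivity)]
    have : 0 < (X : ℝ) * T := by positivity
    nlinarith
  linarith

theorem pr_card {m n : ℕ} (h : m ≤ n) :
    ((pr m n).card : ℝ) = (Nat.primeCounting n : ℝ) - (Nat.primeCounting m : ℝ) := by
  have e1 : ∀ k, Nat.primeCounting k = ((range (k + 1)).filter Nat.Prime).card := fun k => by
    rw [Nat.primeCounting, Nat.primeCounting', Nat.count_eq_card_filter_range]
  have e2 : (range (n + 1)).filter Nat.Prime = (range (m + 1)).filter Nat.Prime ∪ pr m n := by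
    ext p
    rw [mem_union, mem_filter, mem_filter, pr, mem_filter, mem_range, mem_range, mem_Ioc]
    constructor
    · rintro ⟨a, b⟩
      rcases le_or_gt p m with c | c
      · exact Or.inl ⟨by omega, b⟩
      · exact Or.inr ⟨by omega, b⟩
    · rintro (⟨a, b⟩ | ⟨a, b⟩)
      · exact ⟨by omega, b⟩
      · exact ⟨by omega, b⟩
  have e3 : Disjoint ((range (m + 1)).filter Nat.Prime) (pr m n) := by
    rw [disjoint_left]
    intro p hp hq
    rw [mem_filter, mem_range] at hp
    rw [pr, mem_filter, mem_Ioc] at hq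
    omega
  rw [e1 n, e2, card_union_of_disjoint e3, e1 m]
  push_cast
  ring

theorem uniform_iff : Uniform (fun _ => 1) ↔ ∀ ε : ℝ, 0 < ε → ∃ N : ℝ, 1 < N ∧ ∀ x y : ℝ,
    N ≤ x → Real.log x ^ N ≤ y → y ≤ x →
    |((Nat.primeCounting ⌊x + y⌋₊ : ℝ) - (Nat.primeCounting ⌊x⌋₊ : ℝ)) / (y / Real.log x) - 1| ≤
      ε := by
  unfold Uniform
  refine forall_congr' fun ε => forall_congr' fun _ => exists_congr fun N => ?_
  refine and_congr_right fun hN => forall_congr' fun x => forall_congr' fun y => ?_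
  refine forall_congr' fun hx => forall_congr' fun hy => forall_congr' fun _ => ?_
  have hy0 : 0 ≤ y := le_trans (Real.rpow_nonneg (Real.log_nonneg (by linarith)) _) hy
  rw [rr_one, pr_card (Nat.floor_le_floor (by linarith))]

end Pool.Agent.H564.UA
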