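import Pool.Agent.H564.UA.Det
import Pool.Agent.H564.SC.Exist

/-! Random samples of the primes and uniform asymptotics in short intervals. -/

set_option autoImplicit false

namespace Pool.Agent.H564.UA

open Finset Filter Topology MeasureTheory ProbabilityTheory Classical
open Pool.Agent.H564.BSD (wt)
open Pool.Agent.H564.CH (num num_eq num_meas num_le num_nonneg mgf_num)

variable {Ω : Type*} [mΩ : MeasurableSpace Ω] {μ : Measure Ω} [IsProbabilityMeasure μ]
  {A : ℕ → Set Ω} {δ : ℕ → ℝ} {C : ℝ}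

theorem prob_le (hμ : ∀ p, μ (A p) = ENNReal.ofReal (δ p)) (p : ℕ) : δ p ≤ 1 := by
  have h1 : μ (A p) ≤ 1 := prob_le_one
  rw [hμ p, ENNReal.ofReal_le_one] at h1
  exact h1

theorem close_all (hA : ∀ p, MeasurableSet (A p)) (hind : iIndepSet A μ)
    (hδ0 : ∀ p, 0 < δ p) (hμ : ∀ p, μ (A p) = ENNReal.ofReal (δ p))
    (hC : 0 ≤ C) (hd : ∀ᶠ p : ℕ in atTop, p.Prime → Real.log p ^ (-C) ≤ δ p) :
    ∀ᵐ ω ∂μ, ∀ a : ℝ, C + 2 < a → Close (wt A δ ω) (fun _ => 1) a := by
  have key : ∀ᵐ ω ∂μ, ∀ q r : ℕ, ∀ᶠ m : ℕ in atTop, ∀ n : ℕ, n ≤ 2 * m + 2 →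
      Real.log m ^ (C + 2 + 1 / ((q : ℝ) + 1)) / 2 ≤ (n : ℝ) - m →
      |∑ p ∈ pr m n, (wt A δ ω p - 1)| ≤
        (1 / ((r : ℝ) + 1)) * (((n : ℝ) - m) / Real.log m + ((pr m n).card : ℝ)) := by
    rw [ae_all_iff]; intro q
    rw [ae_all_iff]; intro r
    exact int_noise hA hind hδ0 (prob_le hμ) hμ hC hd
      (by have : (0 : ℝ) < 1 / ((q : ℝ) + 1) := by positivity
          linarith) (by positivity)
  filter_upwards [key] with ω hω a ha
  refine close_of_noise (by linarith) fun ε hε => ?_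
  obtain ⟨q, hq⟩ := exists_nat_one_div_lt (show 0 < a - (C + 2) by linarith)
  obtain ⟨r, hr⟩ := exists_nat_one_div_lt hε
  filter_upwards [hω q r, eventually_ge_atTop 3] with m hm hm3 n hn hlen
  have hmr : (3 : ℝ) ≤ m := by exact_mod_cast hm3
  have hlog : 1 ≤ Real.log m := by
    rw [Real.le_log_iff_exp_le (by linarith)]
    have := Real.exp_one_lt_d9
    linarith
  have h1 : Real.log m ^ (C + 2 + 1 / ((q : ℝ) + 1)) ≤ Real.log m ^ a :=
    Real.rpow_le_rpow_of_exponent_le hlog (by linarith)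
  refine (hm n hn (by linarith)).trans ?_
  have hnm : 0 ≤ (n : ℝ) - m := le_trans (by positivity) hlen
  exact mul_le_mul_of_nonneg_right hr.le (by positivity)

theorem upper_tail (hA : ∀ p, MeasurableSet (A p)) (hind : iIndepSet A μ)
    (hδ0 : ∀ p, 0 < δ p) (hμ : ∀ p, μ (A p) = ENNReal.ofReal (δ p)) (s : Finset ℕ) (x : ℝ) :
    μ.real {ω | 4 * (∑ i ∈ s, δ i) + x ≤ num A s ω} ≤ Real.exp (-x) := by
  have hint : Integrable (fun ω => Real.exp (1 * num A s ω)) μ := by
    refine Integrable.of_bound (C := Real.exp (s.card : ℝ)) ?_ ?_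
    · exact ((num_meas hA s).const_mul _).exp.aestronglyMeasurable
    · refine ae_of_all _ fun ω => ?_
      rw [Real.norm_of_nonneg (Real.exp_nonneg _), one_mul, Real.exp_le_exp]
      exact num_le A s ω
  refine (measure_ge_le_exp_mul_mgf (4 * (∑ i ∈ s, δ i) + x) (by norm_num : (0 : ℝ) ≤ 1)
    hint).trans ?_
  have h1 := mgf_num hA hind hδ0 hμ 1 s
  have hΛ : 0 ≤ ∑ i ∈ s, δ i := sum_nonneg fun i _ => (hδ0 i).le
  calc Real.exp (-1 * (4 * (∑ i ∈ s, δ i) + x)) * mgf (num A s) μ 1 ≤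
        Real.exp (-1 * (4 * (∑ i ∈ s, δ i) + x)) *
          Real.exp ((Real.exp 1 - 1) * ∑ i ∈ s, δ i) :=
        mul_le_mul_of_nonneg_left h1 (Real.exp_nonneg _)
    _ ≤ _ := by
        rw [← Real.exp_add]
        refine Real.exp_le_exp.2 ?_
        have h2 := Real.exp_one_lt_d9
        nlinarith

/-- few primes in a very sparse sample -/
theorem few (hA : ∀ p, MeasurableSet (A p)) (hind : iIndepSet A μ)
    (hδ0 : ∀ p, 0 < δ p) (hμ : ∀ p, μ (A p) = ENNReal.ofReal (δ p))
    (hd : ∀ N : ℝ, ∀ᶠ p : ℕ in atTop, p.Prime → δ p ≤ Real.log p ^ (-N)) :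
    ∀ᵐ ω ∂μ, ∀ N : ℝ, ∀ᶠ X : ℕ in atTop,
      (((Icc 1 X).filter fun p => p.Prime ∧ ω ∈ A p).card : ℝ) ≤ X / Real.log X ^ N := by
  have hδ1 := prob_le (A := A) (μ := μ) (δ := δ) hμ
  set S : ℕ → Finset ℕ := fun X => (Icc 1 X).filter Nat.Prime with hS
  set E : ℕ → Set Ω := fun X =>
    {ω | 4 * (∑ i ∈ S X, δ i) + 2 * Real.log ((X : ℝ) + 1) ≤ num A (S X) ω} with hE
  have hEμ : ∀ X, μ (E X) ≤ ENNReal.ofReal ((((X : ℝ) + 1) ^ 2)⁻¹) := by
    intro X
    have h0 : (0 : ℝ) < (X : ℝ) + 1 := by positivity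
    rw [← ofReal_measureReal]
    refine ENNReal.ofReal_le_ofReal ?_
    refine (upper_tail hA hind hδ0 hμ (S X) (2 * Real.log ((X : ℝ) + 1))).trans (le_of_eq ?_)
    rw [Real.exp_neg, mul_comm, Real.exp_mul, Real.exp_log h0, ← Real.rpow_natCast]
    norm_num
  have hsum : ∑' x, μ (E x) ≠ ⊤ := by
    have h4 : Summable fun N : ℕ => (((N : ℝ) + 1) ^ 2)⁻¹ := by
      have := (summable_nat_add_iff 1).2 (Real.summable_nat_pow_inv.2 (by norm_num : 1 < 2))
      simpa using this
    exact ne_top_of_le_ne_top h4.tsum_ofReal_ne_top (ENNReal.tsum_le_tsum hEμ)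
  filter_upwards [ae_eventually_notMem hsum] with ω hω N
  have t := tendsto_natCast_atTop_atTop (R := ℝ)
  set N' : ℝ := max N 0 with hN'
  have hN0 : 0 ≤ N' := le_max_right _ _
  obtain ⟨P, hP⟩ := eventually_atTop.1 (hd (N' + 1))
  have h2 := t.eventually (Real.tendsto_log_atTop.eventually_ge_atTop (2 ^ (N' + 1) * 32 + 1))
  have h3 := t.eventually ((isLittleO_log_rpow_atTop
    (show 0 < 1 / (4 * (N' + 1)) by positivity)).bound (show (0 : ℝ) < 1 by norm_num))
  have h4 := t.eventually ((tendsto_rpow_atTop (show (0 : ℝ) < 1 / 4 by norm_num)).eventually_ge_atTop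
    (64 + P))
  filter_upwards [hω, h2, h3, h4, eventually_ge_atTop 3] with X h1 h2 h3 h4 hX3
  have hXr : (3 : ℝ) ≤ X := by exact_mod_cast hX3
  have hX0 : (0 : ℝ) < X := by linarith
  have h2p : (0 : ℝ) < 2 ^ (N' + 1) := by positivity
  have hlog1 : 1 ≤ Real.log X := by linarith
  have hlog0 : 0 < Real.log X := by linarith
  rw [Real.norm_of_nonneg hlog0.le, one_mul, Real.norm_of_nonneg (by positivity)] at h3
  simp only [hE, Set.mem_ofPred_eq, not_le] at h1
  rw [num_eq] at h1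
  have e1 : (S X).filter (fun p => ω ∈ A p) = (Icc 1 X).filter fun p => p.Prime ∧ ω ∈ A p := by
    rw [hS, filter_filter]
  rw [e1] at h1
  refine h1.le.trans ?_
  -- `log^(N'+1) X ≤ X^(1/4)`
  have hlogN : Real.log X ^ (N' + 1) ≤ (X : ℝ) ^ (1 / 4 : ℝ) := by
    calc Real.log X ^ (N' + 1) ≤ ((X : ℝ) ^ (1 / (4 * (N' + 1)))) ^ (N' + 1) :=
          Real.rpow_le_rpow hlog0.le h3 (by linarith)
      _ = (X : ℝ) ^ (1 / 4 : ℝ) := by
          rw [← Real.rpow_mul hX0.le]
          congr 1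
          field_simp
  set Z : ℝ := (X : ℝ) ^ (1 / 4 : ℝ) with hZ
  have hZ4 : Z * Z * (Z * Z) = X := by
    rw [hZ, ← Real.rpow_add hX0, ← Real.rpow_add hX0]
    norm_num
  have hZ64 : 64 ≤ Z := by
    have : (0 : ℝ) ≤ P := Nat.cast_nonneg P
    linarith
  set W : ℝ := Real.log X ^ (N' + 1) with hW
  have hW1 : 1 ≤ W := Real.one_le_rpow hlog1 (by linarith)
  -- the mean
  have hmean : ∑ i ∈ S X, δ i ≤ Z * Z + X * (2 ^ (N' + 1) / W) := by
    have h5 : ∀ i ∈ S X, δ i ≤ (if (i : ℝ) ≤ Z * Z then 1 else 0) + 2 ^ (N' + 1) / W := by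
      intro i hi
      rw [hS, mem_filter, mem_Icc] at hi
      have h6 : 0 ≤ 2 ^ (N' + 1) / W := by positivity
      split_ifs with hiZ
      · linarith [hδ1 i]
      · rw [zero_add]
        push Not at hiZ
        have hiP : P ≤ i := by
          have : (P : ℝ) ≤ i := by
            have h7 : (P : ℝ) ≤ Z := by linarith
            nlinarith
          exact_mod_cast this
        refine (hP i hiP hi.2).trans ?_
        have hi0 : (0 : ℝ) < i := by linarith [mul_pos (show 0 < Z by linarith) (show 0 < Z by linarith)]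
        have hlogi : Real.log X / 2 ≤ Real.log i := by
          have h8 : Real.log (Z * Z) ≤ Real.log i := Real.log_le_log (by positivity) hiZ.le
          have h9 : Real.log X = 2 * Real.log (Z * Z) := by
            rw [← hZ4, Real.log_mul (by positivity) (by positivity)]
            ring
          linarith
        rw [Real.rpow_neg (by linarith), inv_eq_one_div, div_le_div_iff₀
          (by have : 0 < Real.log i := by linarith
              positivity) (by positivity), one_mul, hW]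
        calc Real.log X ^ (N' + 1) = 2 ^ (N' + 1) * (Real.log X / 2) ^ (N' + 1) := by
              rw [← Real.mul_rpow (by norm_num) (by positivity)]
              congr 1
              ring
          _ ≤ 2 ^ (N' + 1) * Real.log i ^ (N' + 1) := by
              refine mul_le_mul_of_nonneg_left ?_ h2p.le
              exact Real.rpow_le_rpow (by positivity) hlogi (by linarith)
    refine (sum_le_sum h5).trans ?_
    rw [sum_add_distrib, sum_const, nsmul_eq_mul, ← sum_filter, sum_const, nsmul_eq_mul, mul_one]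
    have hc1 : ((S X).card : ℝ) ≤ X := by
      have : (S X).card ≤ X := by
        have := card_filter_le (Icc 1 X) Nat.Prime
        rw [Nat.card_Icc] at this
        simpa using this
      exact_mod_cast this
    have hc2 : (((S X).filter fun i : ℕ => (i : ℝ) ≤ Z * Z).card : ℝ) ≤ Z * Z := by
      have h10 : (S X).filter (fun i : ℕ => (i : ℝ) ≤ Z * Z) ⊆ Icc 1 ⌊Z * Z⌋₊ := by
        intro i hi
        rw [mem_filter, hS, mem_filter, mem_Icc] at hi
        rw [mem_Icc]
        exact ⟨hi.1.1.1, Nat.le_floor hi.2⟩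
      have h11 := card_le_card h10
      rw [Nat.card_Icc, Nat.add_sub_cancel] at h11
      calc (((S X).filter fun i : ℕ => (i : ℝ) ≤ Z * Z).card : ℝ) ≤ (⌊Z * Z⌋₊ : ℝ) := by
            exact_mod_cast h11
        _ ≤ Z * Z := Nat.floor_le (by positivity)
    have h12 : 0 ≤ 2 ^ (N' + 1) / W := by positivity
    exact add_le_add hc2 (mul_le_mul_of_nonneg_right hc1 h12)
  have hlogX1 : Real.log ((X : ℝ) + 1) ≤ Z * Z := by
    have h13 : (X : ℝ) + 1 ≤ (X : ℝ) ^ 2 := by nlinarith
    have h14 : Real.log ((X : ℝ) + 1) ≤ 2 * Real.log X := by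
      calc Real.log ((X : ℝ) + 1) ≤ Real.log ((X : ℝ) ^ 2) := Real.log_le_log (by linarith) h13
        _ = 2 * Real.log X := by rw [Real.log_pow]; norm_num
    have h15 : Real.log X ≤ W := by
      calc Real.log X = Real.log X ^ (1 : ℝ) := (Real.rpow_one _).symm
        _ ≤ W := Real.rpow_le_rpow_of_exponent_le hlog1 (by linarith)
    nlinarith
  -- conclusion
  have hfin : 4 * (Z * Z + X * (2 ^ (N' + 1) / W)) + 2 * (Z * Z) ≤ X / Real.log X ^ N' := by
    have hWN : W = Real.log X ^ N' * Real.log X := by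
      rw [hW, Real.rpow_add hlog0, Real.rpow_one]
    set V : ℝ := Real.log X ^ N' with hV
    have hV1 : 1 ≤ V := Real.one_le_rpow hlog1 hN0
    have h16 : 4 * (X * (2 ^ (N' + 1) / W)) ≤ X / V / 2 := by
      rw [hWN, div_div, ← mul_div_assoc, ← mul_div_assoc, div_le_div_iff₀ (by positivity)
        (by positivity)]
      have h17 : 8 * 2 ^ (N' + 1) ≤ Real.log X := by linarith
      have h18 : 0 < (X : ℝ) * V := by positivity
      nlinarith
    have h19 : 6 * (Z * Z) ≤ X / V / 2 := by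
      rw [div_div, le_div_iff₀ (by positivity)]
      have hVZ : V ≤ Z := by
        refine le_trans ?_ hlogN
        rw [hWN]
        nlinarith
      have h20 : (Z * Z) * (6 * (V * 2)) ≤ (Z * Z) * (Z * Z) :=
        mul_le_mul_of_nonneg_left (by nlinarith) (by positivity)
      linarith
    linarith
  have hNN : X / Real.log X ^ N' ≤ X / Real.log X ^ N := by
    refine div_le_div_of_nonneg_left hX0.le (by positivity) ?_
    exact Real.rpow_le_rpow_of_exponent_le hlog1 (le_max_left _ _)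
  refine le_trans ?_ hNN
  refine le_trans ?_ hfin
  linarith

theorem too_sparse (hA : ∀ p, MeasurableSet (A p)) (hind : iIndepSet A μ)
    (hδ0 : ∀ p, 0 < δ p) (hμ : ∀ p, μ (A p) = ENNReal.ofReal (δ p))
    (hd : ∀ N : ℝ, ∀ᶠ p : ℕ in atTop, p.Prime → δ p ≤ Real.log p ^ (-N)) :
    ∀ᵐ ω ∂μ, ∀ v : ℕ → ℝ, (∀ p, v p ≠ 0 → ω ∈ A p) → ¬ Uniform v := by
  filter_upwards [few hA hind hδ0 hμ hd] with ω hω v hv hU
  obtain ⟨N, hN0, hN⟩ := size_lower hU
  have t := tendsto_natCast_atTop_atTop (R := ℝ)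
  have h2 := t.eventually (Real.tendsto_log_atTop.eventually_ge_atTop 2)
  obtain ⟨X, h3, h4, h5, h6⟩ := (hN.and ((hω (N + 1)).and (h2.and (eventually_ge_atTop 1)))).exists
  have hX0 : (0 : ℝ) < X := by exact_mod_cast h6
  have h7 : ((used v X).card : ℝ) ≤
      (((Icc 1 X).filter fun p => p.Prime ∧ ω ∈ A p).card : ℝ) := by
    have : used v X ⊆ (Icc 1 X).filter fun p => p.Prime ∧ ω ∈ A p := by
      intro p hp
      rw [used, mem_filter] at hp
      rw [mem_filter]
      exact ⟨hp.1, hp.2.1, hv p hp.2.2⟩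
    exact_mod_cast card_le_card this
  have h8 := h3.trans (h7.trans h4)
  have hl0 : 0 < Real.log X := by linarith
  rw [Real.rpow_add hl0, Real.rpow_one, div_le_div_iff₀ (by positivity) (by positivity)] at h8
  have h9 : 0 < (X : ℝ) * Real.log X ^ N := by positivity
  nlinarith

end Pool.Agent.H564.UA
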