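import Pool.Agent.H564.SC.Noise
import Pool.Agent.H564.CH.Prob

/-! Random samples of the primes in short intervals. -/

set_option autoImplicit false

namespace Pool.Agent.H564.UA

open Finset Filter Topology MeasureTheory ProbabilityTheory Classical
open Pool.Agent.H564.BSD (wt)

/-- the primes in `(m, n]` -/
noncomputable def pr (m n : ℕ) : Finset ℕ := (Ioc m n).filter Nat.Prime

variable {Ω : Type*} [mΩ : MeasurableSpace Ω] {μ : Measure Ω} [IsProbabilityMeasure μ]
  {A : ℕ → Set Ω} {δ : ℕ → ℝ} {C : ℝ}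

theorem int_noise (hA : ∀ p, MeasurableSet (A p)) (hind : iIndepSet A μ)
    (hδ0 : ∀ p, 0 < δ p) (hδ1 : ∀ p, δ p ≤ 1) (hμ : ∀ p, μ (A p) = ENNReal.ofReal (δ p))
    (hC : 0 ≤ C) (hd : ∀ᶠ p : ℕ in atTop, p.Prime → Real.log p ^ (-C) ≤ δ p)
    {a ε : ℝ} (ha : C + 2 < a) (hε : 0 < ε) :
    ∀ᵐ ω ∂μ, ∀ᶠ m : ℕ in atTop, ∀ n : ℕ, n ≤ 2 * m + 2 →
      Real.log m ^ a / 2 ≤ (n : ℝ) - m →
      |∑ p ∈ pr m n, (wt A δ ω p - 1)| ≤
        ε * (((n : ℝ) - m) / Real.log m + ((pr m n).card : ℝ)) := by
  set e : ℝ := min ε 2 with he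
  have he0 : 0 < e := lt_min hε (by norm_num)
  have he2 : e ≤ 2 := min_le_right _ _
  have heε : e ≤ ε := min_le_left _ _
  -- the weights
  set M : ℕ → ℝ := fun m => (2 * Real.log m) ^ C with hM
  set b : ℝ := e ^ 2 / (4 * 2 ^ C) with hb
  have hb0 : 0 < b := by positivity
  have t : Tendsto (fun m : ℕ => Real.log m) atTop atTop :=
    Real.tendsto_log_atTop.comp tendsto_natCast_atTop_atTop
  obtain ⟨P, hP⟩ := eventually_atTop.1 hd
  have hbig := t.eventually ((tendsto_rpow_atTop (show 0 < a - C - 2 by linarith)).eventually_ge_atTop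
    (4 / b))
  obtain ⟨m₀, hm₀⟩ := eventually_atTop.1 (hbig.and (eventually_ge_atTop (max P 3)))
  -- one event
  have hone : ∀ (σ : ℝ), |σ| ≤ 1 → ∀ m n : ℕ, m₀ ≤ m → n ≤ 2 * m + 2 →
      Real.log m ^ a / 2 ≤ (n : ℝ) - m →
      μ.real {ω | e * (((n : ℝ) - m) / Real.log m + ((pr m n).card : ℝ)) ≤
        ∑ p ∈ pr m n, (wt A δ ω p - 1) * σ} ≤ ((m : ℝ) ^ 4)⁻¹ := by
    intro σ hσ m n hm hn hlen
    obtain ⟨h1, h2⟩ := hm₀ m hm
    have hm3 : 3 ≤ m := (le_max_right _ _).trans h2
    have hmP : P ≤ m := (le_max_left _ _).trans h2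
    have hmr : (3 : ℝ) ≤ m := by exact_mod_cast hm3
    have hm0 : (0 : ℝ) < m := by linarith
    have hlog : 1 ≤ Real.log m := by
      rw [Real.le_log_iff_exp_le hm0]
      have := Real.exp_one_lt_d9
      linarith
    have hMm : 0 < M m := by simp only [hM]; positivity
    have hinv : ∀ p ∈ pr m n, 1 / δ p ≤ M m := by
      intro p hp
      rw [pr, mem_filter, mem_Ioc] at hp
      have hpP : P ≤ p := by omega
      have h3 := hP p hpP hp.2
      have hp3 : (3 : ℝ) ≤ p := by exact_mod_cast (by omega : 3 ≤ p)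
      have hp0 : (0 : ℝ) < p := by linarith
      have hlp : 0 < Real.log p := Real.log_pos (by linarith)
      have hpm : (p : ℝ) ≤ (m : ℝ) ^ 2 := by
        have h4 : (p : ℝ) ≤ 2 * m + 2 := by
          have : p ≤ 2 * m + 2 := by omega
          exact_mod_cast this
        nlinarith
      have hlpm : Real.log p ≤ 2 * Real.log m := by
        calc Real.log p ≤ Real.log ((m : ℝ) ^ 2) := Real.log_le_log hp0 hpm
          _ = 2 * Real.log m := by rw [Real.log_pow]; norm_num
      rw [Real.rpow_neg hlp.le] at h3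
      have h5 : 1 / δ p ≤ Real.log p ^ C := by
        rw [div_le_iff₀ (hδ0 p)]
        have : (0 : ℝ) < Real.log p ^ C := by positivity
        calc (1 : ℝ) = Real.log p ^ C * (Real.log p ^ C)⁻¹ := by field_simp
          _ ≤ _ := mul_le_mul_of_nonneg_left h3 this.le
      exact h5.trans (Real.rpow_le_rpow hlp.le hlpm hC)
    set s : ℝ := ((pr m n).card : ℝ) with hs
    have hs0 : 0 ≤ s := Nat.cast_nonneg _
    set Y : ℝ := ((n : ℝ) - m) / Real.log m with hY
    have hl0 : 0 ≤ e / (2 * M m) := by positivity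
    refine (Pool.Agent.H564.SC.chernoff hA hind hδ0 hδ1 hμ (fun _ => σ) (fun _ => hσ) (pr m n)
      (l := e / (2 * M m)) hl0 ?_ (e * (Y + s))).trans ?_
    · intro p hp
      have h3 := hinv p hp
      calc e / (2 * M m) / δ p = (e / 2) * (1 / δ p) / M m := by
            have := (hδ0 p).ne'
            field_simp
        _ ≤ 1 * M m / M m := by
            have h6 : (0 : ℝ) < 1 / δ p := one_div_pos.2 (hδ0 p)
            refine div_le_div_of_nonneg_right ?_ hMm.le
            exact mul_le_mul (by linarith) h3 h6.le (by norm_num)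
        _ = 1 := by field_simp
    · have hV : ∑ p ∈ pr m n, 1 / δ p ≤ s * M m := by
        refine (sum_le_card_nsmul _ _ _ hinv).trans ?_
        rw [nsmul_eq_mul]
      have hexp : (e / (2 * M m)) ^ 2 * ∑ p ∈ pr m n, 1 / δ p -
          e / (2 * M m) * (e * (Y + s)) ≤ -(4 * Real.log m) := by
        have h4 : (e / (2 * M m)) ^ 2 * ∑ p ∈ pr m n, 1 / δ p ≤ e ^ 2 * s / (4 * M m) := by
          calc _ ≤ (e / (2 * M m)) ^ 2 * (s * M m) :=
                mul_le_mul_of_nonneg_left hV (by positivity)
            _ = _ := by field_simp; ring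
        have h5 : e / (2 * M m) * (e * (Y + s)) = e ^ 2 * Y / (2 * M m) + e ^ 2 * s / (2 * M m) := by
          ring
        have h6 : e ^ 2 * s / (4 * M m) ≤ e ^ 2 * s / (2 * M m) := by
          refine div_le_div_of_nonneg_left (by positivity) (by positivity) ?_
          linarith
        have h7 : 4 * Real.log m ≤ e ^ 2 * Y / (2 * M m) := by
          rw [le_div_iff₀ (by positivity)]
          have e1 : M m = 2 ^ C * Real.log m ^ C := by
            simp only [hM]
            rw [Real.mul_rpow (by norm_num) (by linarith)]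
          have h8 : Real.log m ^ a / 2 / Real.log m ≤ Y := by
            rw [hY]
            exact div_le_div_of_nonneg_right hlen (by linarith)
          have e2 : Real.log m ^ a = Real.log m ^ (a - C - 2) * Real.log m ^ C *
              (Real.log m * Real.log m) := by
            have hl : 0 < Real.log m := by linarith
            have h9 : Real.log m * Real.log m = Real.log m ^ (2 : ℝ) := by
              rw [Real.rpow_two]; ring
            rw [h9, ← Real.rpow_add hl, ← Real.rpow_add hl]
            congr 1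
            ring
          have h10 : Real.log m ^ (a - C - 2) * Real.log m ^ C * Real.log m / 2 ≤ Y := by
            refine le_trans (le_of_eq ?_) h8
            rw [e2]
            have hl : Real.log m ≠ 0 := by linarith
            field_simp
          have h11 : 4 / b * (Real.log m ^ C * Real.log m) / 2 ≤ Y := by
            refine le_trans ?_ h10
            have h12 := mul_le_mul_of_nonneg_right h1
              (show 0 ≤ Real.log m ^ C * Real.log m by positivity)
            linarith
          rw [e1]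
          have h13 : e ^ 2 * (4 / b * (Real.log m ^ C * Real.log m) / 2) ≤ e ^ 2 * Y :=
            mul_le_mul_of_nonneg_left h11 (by positivity)
          refine le_trans (le_of_eq ?_) h13
          rw [hb]
          field_simp
          norm_num
        linarith
      refine (Real.exp_le_exp.2 hexp).trans (le_of_eq ?_)
      rw [Real.exp_neg, mul_comm, Real.exp_mul, Real.exp_log hm0, ← Real.rpow_natCast]
      norm_num
  -- the exceptional events
  set E : ℕ → Set Ω := fun m => if m₀ ≤ m then ⋃ n : Fin (2 * m + 3),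
      (if Real.log m ^ a / 2 ≤ ((n : ℕ) : ℝ) - m then
      {ω | e * ((((n : ℕ) : ℝ) - m) / Real.log m + ((pr m n).card : ℝ)) ≤
        ∑ p ∈ pr m n, (wt A δ ω p - 1) * 1} ∪
      {ω | e * ((((n : ℕ) : ℝ) - m) / Real.log m + ((pr m n).card : ℝ)) ≤
        ∑ p ∈ pr m n, (wt A δ ω p - 1) * (-1)} else ∅) else ∅ with hE
  have hEμ : ∀ m, μ (E m) ≤ ENNReal.ofReal (10 * ((m : ℝ) ^ 2)⁻¹) := by
    intro m
    simp only [hE]
    split_ifs with hm
    · refine (measure_iUnion_fintype_le _ _).trans ?_
      have hm3 : 3 ≤ m := (le_max_right _ _).trans (hm₀ m hm).2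
      have hmr : (3 : ℝ) ≤ m := by exact_mod_cast hm3
      have h4 : ∀ n : Fin (2 * m + 3), μ (if Real.log m ^ a / 2 ≤ ((n : ℕ) : ℝ) - m then
          {ω | e * ((((n : ℕ) : ℝ) - m) / Real.log m + ((pr m n).card : ℝ)) ≤
            ∑ p ∈ pr m n, (wt A δ ω p - 1) * 1} ∪
          {ω | e * ((((n : ℕ) : ℝ) - m) / Real.log m + ((pr m n).card : ℝ)) ≤
            ∑ p ∈ pr m n, (wt A δ ω p - 1) * (-1)} else ∅) ≤
          ENNReal.ofReal (2 * ((m : ℝ) ^ 4)⁻¹) := by
        intro n
        split_ifs with hlen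
        · have e4 : ENNReal.ofReal (2 * ((m : ℝ) ^ 4)⁻¹) =
              ENNReal.ofReal (((m : ℝ) ^ 4)⁻¹) + ENNReal.ofReal (((m : ℝ) ^ 4)⁻¹) := by
            rw [← ENNReal.ofReal_add (by positivity) (by positivity)]
            congr 1
            ring
          rw [e4]
          refine (measure_union_le _ _).trans (add_le_add ?_ ?_)
          · rw [← ofReal_measureReal]
            exact ENNReal.ofReal_le_ofReal (hone 1 (by norm_num) m n hm (by omega) hlen)
          · rw [← ofReal_measureReal]
            exact ENNReal.ofReal_le_ofReal (hone (-1) (by norm_num) m n hm (by omega) hlen)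
        · simp
      refine (sum_le_sum fun i _ => h4 i).trans ?_
      rw [sum_const, card_univ, Fintype.card_fin, nsmul_eq_mul, ← ENNReal.ofReal_natCast,
        ← ENNReal.ofReal_mul (Nat.cast_nonneg _)]
      refine ENNReal.ofReal_le_ofReal ?_
      push_cast
      have h5 : (2 * (m : ℝ) + 3) * (2 * ((m : ℝ) ^ 4)⁻¹) = (4 * m + 6) / (m : ℝ) ^ 4 := by
        field_simp
        ring
      rw [h5, div_le_iff₀ (by positivity)]
      have h6 : 10 * ((m : ℝ) ^ 2)⁻¹ * (m : ℝ) ^ 4 = 10 * (m : ℝ) ^ 2 := by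
        field_simp
      rw [h6]
      nlinarith
    · simp
  have hsum : ∑' x, μ (E x) ≠ ⊤ := by
    have h4 : Summable fun m : ℕ => 10 * ((m : ℝ) ^ 2)⁻¹ :=
      (Real.summable_nat_pow_inv.2 (by norm_num : 1 < 2)).mul_left _
    exact ne_top_of_le_ne_top h4.tsum_ofReal_ne_top (ENNReal.tsum_le_tsum hEμ)
  filter_upwards [ae_eventually_notMem hsum] with ω hω
  filter_upwards [hω, eventually_ge_atTop m₀] with m hm hm' n hn hlen
  simp only [hE] at hm
  rw [if_pos hm'] at hm
  simp only [Set.mem_iUnion, not_exists] at hm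
  have h1 := hm ⟨n, by omega⟩
  simp only at h1
  rw [if_pos hlen] at h1
  simp only [Set.mem_union, Set.mem_ofPred_eq, not_or, not_le, mul_one, mul_neg,
    sum_neg_distrib] at h1
  obtain ⟨b1, b2⟩ := h1
  have hm3 : 3 ≤ m := (le_max_right _ _).trans (hm₀ m hm').2
  have hlog : 0 ≤ Real.log m := Real.log_natCast_nonneg m
  have hnm : 0 ≤ (n : ℝ) - m := le_trans (by positivity) hlen
  have h2 : 0 ≤ ((n : ℝ) - m) / Real.log m + ((pr m n).card : ℝ) := by positivity
  have h3 := mul_le_mul_of_nonneg_right heε h2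
  rw [abs_le]
  exact ⟨by linarith, by linarith⟩

end Pool.Agent.H564.UA
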